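import Pool.Agent.N728.QG.Def
import Mathlib

/-!
# QG/AVG: the average of `∏_{p ∣ P(v), p > s} (1 + κ/p)^2` over a box

By the theorem of Schwartz and Zippel modulo the primes `p > s` and a covering of the box by
residue classes modulo the product of the primes in `(s, y]`, `4 ^ y ≤ L`. The primes `p > y`
contribute a factor `1 + o(1)`.
-/

set_option autoImplicit false

namespace Pool.Agent.N323.QG

open Finset Pool.Agent.N728.QL Pool.Agent.N728.QG

noncomputable section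

/-- number of integers of an interval in given classes -/
theorem card_cls (S : Finset ℕ) (hS : ∀ p ∈ S, p.Prime) (L : ℕ) (c : ∀ i : S, ZMod (i : ℕ)) :
    (((Icc (-(L : ℤ)) L).filter (fun x : ℤ => ∀ i : S, ((x : ℤ) : ZMod (i : ℕ)) = c i)).card : ℝ) ≤
      (2 * (L : ℝ) + 1) / ((∏ p ∈ S, p : ℕ) : ℝ) + 1 := by
  classical
  set Q : ℕ := ∏ p ∈ S, p with hQ
  have hQ0 : 0 < Q := Finset.prod_pos fun p hp => (hS p hp).pos
  set A := (Icc (-(L : ℤ)) L).filter (fun x : ℤ => ∀ i : S, ((x : ℤ) : ZMod (i : ℕ)) = c i)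
    with hA
  rcases A.eq_empty_or_nonempty with he | ⟨x0, hx0⟩
  · rw [he, Finset.card_empty, Nat.cast_zero]
    positivity
  have hsub : A ⊆ (Ioc (-(L : ℤ) - 1) L).filter (fun x : ℤ => x ≡ x0 [ZMOD (Q : ℤ)]) := by
    intro x hx
    rw [hA, mem_filter, mem_Icc] at hx hx0
    rw [mem_filter, mem_Ioc]
    refine ⟨⟨by omega, hx.1.2⟩, ?_⟩
    apply Int.ModEq.symm
    rw [Int.modEq_iff_dvd, ← Int.natAbs_dvd_natAbs, Int.natAbs_natCast, hQ]
    refine Finset.prod_primes_dvd _ (fun p hp => (hS p hp).prime) fun p hp => ?_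
    rw [← Int.natCast_dvd, ← ZMod.intCast_eq_intCast_iff_dvd_sub]
    rw [hx0.2 ⟨p, hp⟩, hx.2 ⟨p, hp⟩]
  have h1 := Finset.card_le_card hsub
  have h2 := Int.Ioc_filter_modEq_card (-(L : ℤ) - 1) L (r := (Q : ℤ)) (by exact_mod_cast hQ0) x0
  have h3 : ((max (⌊(((L : ℤ) : ℚ) - (x0 : ℚ)) / (((Q : ℤ) : ℚ))⌋ -
      ⌊((((-(L : ℤ) - 1 : ℤ)) : ℚ) - (x0 : ℚ)) / (((Q : ℤ) : ℚ))⌋) 0 : ℤ) : ℚ) ≤
      (2 * (L : ℚ) + 1) / (Q : ℚ) + 1 := by
    have hQq : (0 : ℚ) < Q := by exact_mod_cast hQ0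
    push_cast
    apply max_le
    · have a1 := Int.floor_le (((L : ℚ) - (x0 : ℚ)) / ((Q : ℚ)))
      have a2 := Int.lt_floor_add_one ((-(L : ℚ) - 1 - (x0 : ℚ)) / ((Q : ℚ)))
      have a3 : ((L : ℚ) - (x0 : ℚ)) / ((Q : ℚ)) - (-(L : ℚ) - 1 - (x0 : ℚ)) / ((Q : ℚ)) =
          (2 * (L : ℚ) + 1) / (Q : ℚ) := by
        field_simp
        ring
      linarith
    · positivity
  have h4 : ((A.card : ℕ) : ℚ) ≤ (2 * (L : ℚ) + 1) / (Q : ℚ) + 1 := by
    refine le_trans ?_ h3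
    rw [← h2]
    exact_mod_cast h1
  have h5 : (((A.card : ℕ) : ℚ) : ℝ) ≤ (((2 * (L : ℚ) + 1) / (Q : ℚ) + 1 : ℚ) : ℝ) := by
    exact_mod_cast h4
  push_cast at h5
  exact h5

/-- a sum over a box of a function of the classes modulo the primes of `S` -/
theorem box_sum {n : ℕ} (S : Finset ℕ) (hS : ∀ p ∈ S, p.Prime) [∀ i : S, NeZero (i : ℕ)] (L : ℕ)
    (hL : 1 ≤ L) (hQL : ∏ p ∈ S, p ≤ L) (F : (∀ i : S, Fin n → ZMod (i : ℕ)) → ℝ)
    (hF : ∀ w, 0 ≤ F w) :
    ∑ v ∈ Fintype.piFinset (fun _ : Fin n => Icc (-(L : ℤ)) L),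
      F (fun i j => ((v j : ℤ) : ZMod (i : ℕ))) ≤
      (4 * (L : ℝ) / ((∏ p ∈ S, p : ℕ) : ℝ)) ^ n * ∑ w, F w := by
  classical
  have hQ0 : 0 < ∏ p ∈ S, p := Finset.prod_pos fun p hp => (hS p hp).pos
  have hQr : (0 : ℝ) < ((∏ p ∈ S, p : ℕ) : ℝ) := by exact_mod_cast hQ0
  rw [← Finset.sum_fiberwise_of_maps_to (s := Fintype.piFinset (fun _ : Fin n => Icc (-(L : ℤ)) L))
    (t := univ) (g := fun v (i : S) (j : Fin n) => ((v j : ℤ) : ZMod (i : ℕ)))
    (fun _ _ => mem_univ _), Finset.mul_sum]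
  refine Finset.sum_le_sum fun w _ => ?_
  have h1 : ∑ v ∈ (Fintype.piFinset (fun _ : Fin n => Icc (-(L : ℤ)) L)).filter
      (fun v => (fun (i : S) (j : Fin n) => ((v j : ℤ) : ZMod (i : ℕ))) = w),
      F (fun i j => ((v j : ℤ) : ZMod (i : ℕ))) =
      (((Fintype.piFinset (fun _ : Fin n => Icc (-(L : ℤ)) L)).filter
      (fun v => (fun (i : S) (j : Fin n) => ((v j : ℤ) : ZMod (i : ℕ))) = w)).card : ℝ) * F w := by
    rw [← nsmul_eq_mul, ← Finset.sum_const]
    refine Finset.sum_congr rfl fun v hv => ?_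
    rw [(mem_filter.1 hv).2]
  rw [h1]
  refine mul_le_mul_of_nonneg_right ?_ (hF w)
  have h2 : (Fintype.piFinset (fun _ : Fin n => Icc (-(L : ℤ)) L)).filter
      (fun v => (fun (i : S) (j : Fin n) => ((v j : ℤ) : ZMod (i : ℕ))) = w) ⊆
      Fintype.piFinset (fun j : Fin n => (Icc (-(L : ℤ)) L).filter
        (fun x : ℤ => ∀ i : S, ((x : ℤ) : ZMod (i : ℕ)) = w i j)) := by
    intro v hv
    rw [mem_filter, Fintype.mem_piFinset] at hv
    rw [Fintype.mem_piFinset]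
    intro j
    rw [mem_filter]
    exact ⟨hv.1 j, fun i => congrFun (congrFun hv.2 i) j⟩
  have h3 := Finset.card_le_card h2
  rw [Fintype.card_piFinset] at h3
  have h4 : ∀ j : Fin n, (((Icc (-(L : ℤ)) L).filter
        (fun x : ℤ => ∀ i : S, ((x : ℤ) : ZMod (i : ℕ)) = w i j)).card : ℝ) ≤
      4 * (L : ℝ) / ((∏ p ∈ S, p : ℕ) : ℝ) := by
    intro j
    refine (card_cls S hS L fun i => w i j).trans ?_
    rw [div_add_one hQr.ne']
    have a1 : ((∏ p ∈ S, p : ℕ) : ℝ) ≤ L := by exact_mod_cast hQL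
    have a2 : (1 : ℝ) ≤ L := by exact_mod_cast hL
    gcongr
    linarith
  calc (((Fintype.piFinset (fun _ : Fin n => Icc (-(L : ℤ)) L)).filter
      (fun v => (fun (i : S) (j : Fin n) => ((v j : ℤ) : ZMod (i : ℕ))) = w)).card : ℝ) ≤
      ((∏ j : Fin n, ((Icc (-(L : ℤ)) L).filter
        (fun x : ℤ => ∀ i : S, ((x : ℤ) : ZMod (i : ℕ)) = w i j)).card : ℕ) : ℝ) := by
        exact_mod_cast h3
    _ = ∏ j : Fin n, (((Icc (-(L : ℤ)) L).filter
        (fun x : ℤ => ∀ i : S, ((x : ℤ) : ZMod (i : ℕ)) = w i j)).card : ℝ) := by push_cast; rfl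
    _ ≤ ∏ _j : Fin n, (4 * (L : ℝ) / ((∏ p ∈ S, p : ℕ) : ℝ)) :=
        Finset.prod_le_prod (fun _ _ => Nat.cast_nonneg _) fun j _ => h4 j
    _ = _ := by rw [Finset.prod_const, Finset.card_univ, Fintype.card_fin]

theorem totalDegree_map_le {n : ℕ} {R : Type} [CommRing R] (f : ℤ →+* R)
    (P : MvPolynomial (Fin n) ℤ) : (MvPolynomial.map f P).totalDegree ≤ P.totalDegree := by
  unfold MvPolynomial.totalDegree
  exact Finset.sup_mono (MvPolynomial.support_map_subset _ _)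

/-- the number of zeros modulo `p` -/
theorem zeros_mod {n δ : ℕ} (p : ℕ) [Fact p.Prime] (P : MvPolynomial (Fin n) (ZMod p))
    (hP : P ≠ 0) (hd : P.totalDegree ≤ δ) :
    (((univ : Finset (Fin n → ZMod p)).filter fun w => MvPolynomial.eval w P = 0).card : ℝ) ≤
      (δ : ℝ) / p * (p : ℝ) ^ n := by
  classical
  have hp0 : 0 < p := (Fact.out : p.Prime).pos
  have h := MvPolynomial.schwartz_zippel_totalDegree hP (univ : Finset (ZMod p))
  rw [Finset.card_univ, ZMod.card] at h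
  have e : Fintype.piFinset (fun _ : Fin n => (univ : Finset (ZMod p))) = univ := by
    ext w
    simp
  rw [e] at h
  have h2 : (((((univ : Finset (Fin n → ZMod p)).filter fun w =>
      MvPolynomial.eval w P = 0).card : ℚ≥0) / ((p : ℚ≥0) ^ n) : ℚ≥0) : ℝ) ≤
      (((P.totalDegree : ℚ≥0) / (p : ℚ≥0) : ℚ≥0) : ℝ) := by exact_mod_cast h
  push_cast at h2
  have hpn : (0 : ℝ) < (p : ℝ) ^ n := by positivity
  rw [div_le_iff₀ hpn] at h2
  refine h2.trans ?_
  have hd' : (P.totalDegree : ℝ) ≤ δ := by exact_mod_cast hd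
  gcongr

/-- the average of the product -/
theorem prod_avg {n δ : ℕ} (S : Finset ℕ) (hS : ∀ p ∈ S, p.Prime) (L : ℕ)
    (hL : 1 ≤ L) (hQL : ∏ p ∈ S, p ≤ L) (P : MvPolynomial (Fin n) ℤ) (hd : P.totalDegree ≤ δ)
    (hP : ∀ p ∈ S, MvPolynomial.map (Int.castRingHom (ZMod p)) P ≠ 0) (h : ℕ → ℝ)
    (hh : ∀ p, 0 ≤ h p) :
    ∑ v ∈ Fintype.piFinset (fun _ : Fin n => Icc (-(L : ℤ)) L),
      (∏ p ∈ S, (if (p : ℤ) ∣ MvPolynomial.eval v P then 1 + h p else 1) - 1) ≤
      (4 * (L : ℝ)) ^ n * (∏ p ∈ S, (1 + δ * h p / p) - 1) := by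
  classical
  have hne : ∀ i : S, NeZero (i : ℕ) := fun i => ⟨(hS i i.2).ne_zero⟩
  have hQ0 : 0 < ∏ p ∈ S, p := Finset.prod_pos fun p hp => (hS p hp).pos
  have hQr : (0 : ℝ) < ((∏ p ∈ S, p : ℕ) : ℝ) := by exact_mod_cast hQ0
  set F : (∀ i : S, Fin n → ZMod (i : ℕ)) → ℝ := fun w =>
    ∏ i : S, (if MvPolynomial.eval (w i) (MvPolynomial.map (Int.castRingHom (ZMod (i : ℕ))) P) = 0
      then 1 + h i else 1) - 1 with hFd
  have hF : ∀ w, 0 ≤ F w := by
    intro w
    rw [hFd, sub_nonneg]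
    have h1 : ∏ _i : S, (1 : ℝ) ≤ ∏ i : S, (if MvPolynomial.eval (w i) (MvPolynomial.map
        (Int.castRingHom (ZMod (i : ℕ))) P) = 0 then 1 + h i else 1) := by
      refine Finset.prod_le_prod (fun _ _ => zero_le_one) fun i _ => ?_
      split_ifs
      · linarith [hh i]
      · exact le_rfl
    rwa [Finset.prod_const_one] at h1
  have hev : ∀ v : Fin n → ℤ, F (fun i j => ((v j : ℤ) : ZMod (i : ℕ))) =
      ∏ p ∈ S, (if (p : ℤ) ∣ MvPolynomial.eval v P then 1 + h p else 1) - 1 := by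
    intro v
    rw [hFd]
    show ∏ i : S, (if MvPolynomial.eval (fun j => ((v j : ℤ) : ZMod (i : ℕ)))
      (MvPolynomial.map (Int.castRingHom (ZMod (i : ℕ))) P) = 0 then 1 + h i else 1) - 1 = _
    rw [← Finset.prod_coe_sort S]
    congr 1
    refine Finset.prod_congr rfl fun i _ => ?_
    have e1 : MvPolynomial.eval (fun j => ((v j : ℤ) : ZMod (i : ℕ)))
        (MvPolynomial.map (Int.castRingHom (ZMod (i : ℕ))) P) =
        ((MvPolynomial.eval v P : ℤ) : ZMod (i : ℕ)) :=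
      (MvPolynomial.map_eval (Int.castRingHom (ZMod (i : ℕ))) v P).symm
    rw [e1]
    have e2 := ZMod.intCast_zmod_eq_zero_iff_dvd (MvPolynomial.eval v P) (i : ℕ)
    by_cases hd : ((i : ℕ) : ℤ) ∣ MvPolynomial.eval v P
    · rw [if_pos hd, if_pos (e2.2 hd)]
    · rw [if_neg hd, if_neg (fun h => hd (e2.1 h))]
  have h1 := box_sum S hS L hL hQL F hF
  rw [Finset.sum_congr rfl fun v _ => hev v] at h1
  refine h1.trans ?_
  have h2 : ∑ w, F w = ∏ i : S, (((i : ℕ) : ℝ) ^ n + h i * (((univ : Finset (Fin n →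
      ZMod (i : ℕ))).filter fun w => MvPolynomial.eval w (MvPolynomial.map
      (Int.castRingHom (ZMod (i : ℕ))) P) = 0).card : ℝ)) - ∏ i : S, ((i : ℕ) : ℝ) ^ n := by
    rw [hFd, Finset.sum_sub_distrib]
    congr 1
    · have e1 := Finset.prod_univ_sum (ι := S) (κ := fun i : S => Fin n → ZMod (i : ℕ))
        (fun i => (univ : Finset (Fin n → ZMod (i : ℕ))))
        (fun i w => if MvPolynomial.eval w (MvPolynomial.map
          (Int.castRingHom (ZMod (i : ℕ))) P) = 0 then 1 + h i else 1)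
      rw [Fintype.piFinset_univ] at e1
      rw [← e1]
      refine Finset.prod_congr rfl fun i _ => ?_
      have e2 : ∀ w : Fin n → ZMod (i : ℕ), (if MvPolynomial.eval w (MvPolynomial.map
          (Int.castRingHom (ZMod (i : ℕ))) P) = 0 then 1 + h i else 1) =
          1 + h i * (if MvPolynomial.eval w (MvPolynomial.map
          (Int.castRingHom (ZMod (i : ℕ))) P) = 0 then 1 else 0) := by
        intro w
        split_ifs <;> ring
      rw [Finset.sum_congr rfl fun w _ => e2 w, Finset.sum_add_distrib, ← Finset.mul_sum,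
        Finset.sum_boole, Finset.sum_const, Finset.card_univ, nsmul_eq_mul, mul_one,
        Fintype.card_fun, ZMod.card, Fintype.card_fin]
      push_cast
      rfl
    · rw [Finset.sum_const, Finset.card_univ, nsmul_eq_mul, mul_one, Fintype.card_pi]
      push_cast
      refine Finset.prod_congr rfl fun i _ => ?_
      rw [Fintype.card_fun, ZMod.card, Fintype.card_fin]
      push_cast
      rfl
  rw [h2]
  have h3 : ∏ i : S, (((i : ℕ) : ℝ) ^ n + h i * (((univ : Finset (Fin n →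
      ZMod (i : ℕ))).filter fun w => MvPolynomial.eval w (MvPolynomial.map
      (Int.castRingHom (ZMod (i : ℕ))) P) = 0).card : ℝ)) ≤
      ∏ i : S, (((i : ℕ) : ℝ) ^ n * (1 + δ * h i / ((i : ℕ) : ℝ))) := by
    refine Finset.prod_le_prod (fun i _ => ?_) fun i _ => ?_
    · have := hh i
      positivity
    · have : Fact (i : ℕ).Prime := ⟨hS i i.2⟩
      have h4 := zeros_mod (n := n) (δ := δ) (i : ℕ)
        (MvPolynomial.map (Int.castRingHom (ZMod (i : ℕ))) P) (hP i i.2)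
        ((totalDegree_map_le _ _).trans hd)
      have h5 := mul_le_mul_of_nonneg_left h4 (hh i)
      refine (add_le_add_right h5 _).trans (le_of_eq ?_)
      ring
  have e4 : ∏ i : S, ((i : ℕ) : ℝ) ^ n = ((∏ p ∈ S, p : ℕ) : ℝ) ^ n := by
    rw [Finset.prod_pow, ← Finset.prod_coe_sort S (fun p => p)]
    push_cast
    rfl
  have e5 : ∏ i : S, (1 + δ * h i / ((i : ℕ) : ℝ)) = ∏ p ∈ S, (1 + δ * h p / (p : ℝ)) :=
    Finset.prod_coe_sort S (fun p => 1 + δ * h p / (p : ℝ))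
  rw [Finset.prod_mul_distrib, e4, e5] at h3
  rw [e4]
  calc (4 * (L : ℝ) / ((∏ p ∈ S, p : ℕ) : ℝ)) ^ n * _ ≤
      (4 * (L : ℝ) / ((∏ p ∈ S, p : ℕ) : ℝ)) ^ n *
        (((∏ p ∈ S, p : ℕ) : ℝ) ^ n * (∏ p ∈ S, (1 + δ * h p / (p : ℝ))) -
          ((∏ p ∈ S, p : ℕ) : ℝ) ^ n) := by
        refine mul_le_mul_of_nonneg_left (sub_le_sub_right h3 _) (by positivity)
    _ = _ := by
        rw [div_pow]
        have : ((∏ p ∈ S, p : ℕ) : ℝ) ^ n ≠ 0 := (pow_pos hQr n).ne'
        field_simp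

theorem hqg_nonneg (κ s : ℕ) (D : ℤ) : 0 ≤ hqg κ s D := by
  unfold hqg
  exact Finset.prod_nonneg fun p _ => by positivity

theorem one_le_hqg (κ s : ℕ) (D : ℤ) : 1 ≤ hqg κ s D := by
  unfold hqg
  have h1 : ∏ _p ∈ D.natAbs.primeFactors.filter (fun p => s < p), (1 : ℝ) ≤
      ∏ p ∈ D.natAbs.primeFactors.filter (fun p => s < p), (1 + (κ : ℝ) / (p : ℝ)) := by
    refine Finset.prod_le_prod (fun _ _ => zero_le_one) fun p _ => ?_
    have : (0 : ℝ) ≤ (κ : ℝ) / (p : ℝ) := by positivity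
    linarith
  rwa [Finset.prod_const_one] at h1

/-- `(1 + κ/p)^2 - 1` -/
def hh (κ p : ℕ) : ℝ := (1 + (κ : ℝ) / (p : ℝ)) ^ 2 - 1

theorem hh_nonneg (κ p : ℕ) : 0 ≤ hh κ p := by
  unfold hh
  have : (0 : ℝ) ≤ (κ : ℝ) / (p : ℝ) := by positivity
  nlinarith

theorem hh_le (κ p : ℕ) (hp : 1 ≤ p) : hh κ p ≤ (2 * κ + (κ : ℝ) ^ 2) / p := by
  unfold hh
  have hp' : (1 : ℝ) ≤ p := by exact_mod_cast hp
  have hp0 : (0 : ℝ) < p := by linarith
  rw [le_div_iff₀ hp0]
  have e : ((1 + (κ : ℝ) / (p : ℝ)) ^ 2 - 1) * p = 2 * κ + (κ : ℝ) ^ 2 / p := by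
    field_simp
    ring
  rw [e]
  have : (κ : ℝ) ^ 2 / p ≤ (κ : ℝ) ^ 2 := div_le_self (by positivity) hp'
  linarith

theorem hqg_split (κ s y : ℕ) (hsy : s ≤ y) (D : ℤ) (hD : D ≠ 0) :
    hqg κ s D ^ 2 = (∏ p ∈ (Ioc s y).filter Nat.Prime, (if (p : ℤ) ∣ D then 1 + hh κ p else 1)) *
      hqg κ y D ^ 2 := by
  classical
  have hD0 : D.natAbs ≠ 0 := Int.natAbs_ne_zero.2 hD
  unfold hqg
  rw [← Finset.prod_filter_mul_prod_filter_not (D.natAbs.primeFactors.filter (fun p => s < p))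
    (fun p => p ≤ y), mul_pow]
  congr 1
  · rw [← Finset.prod_filter, ← Finset.prod_pow]
    refine Finset.prod_congr ?_ fun p _ => ?_
    · ext p
      simp only [Finset.mem_filter, Nat.mem_primeFactors, mem_Ioc, Int.natCast_dvd]
      tauto
    · unfold hh
      ring
  · congr 1
    refine Finset.prod_congr ?_ fun _ _ => rfl
    ext p
    simp only [Finset.mem_filter, not_le]
    constructor
    · rintro ⟨⟨h1, h2⟩, h3⟩; exact ⟨h1, h3⟩
    · rintro ⟨h1, h2⟩; exact ⟨⟨h1, by omega⟩, h2⟩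

/-- the primes greater than `y` -/
theorem hqg_tail (κ y m : ℕ) (D : ℤ) (hD : D ≠ 0) (hy : 2 ≤ y)
    (hDm : D.natAbs ≤ 4 ^ ((y + 1) * m)) :
    hqg κ y D ≤ Real.exp (κ * (2 * m * Real.log 4 / Real.log y)) := by
  unfold hqg
  set S := D.natAbs.primeFactors.filter (fun p => y < p) with hS
  have h1 : y ^ S.card ≤ 4 ^ ((y + 1) * m) := by
    calc y ^ S.card = ∏ p ∈ S, y := by rw [Finset.prod_const]
      _ ≤ ∏ p ∈ S, p := Finset.prod_le_prod (fun _ _ => Nat.zero_le _)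
          (fun p hp => (Finset.mem_filter.1 hp).2.le)
      _ ≤ ∏ p ∈ D.natAbs.primeFactors, p :=
          Finset.prod_le_prod_of_subset_of_one_le' (Finset.filter_subset _ _)
            (fun p hp _ => (Nat.prime_of_mem_primeFactors hp).one_lt.le)
      _ ≤ D.natAbs := Nat.le_of_dvd (Int.natAbs_pos.2 hD) (Nat.prod_primeFactors_dvd _)
      _ ≤ _ := hDm
  have hy0 : (0 : ℝ) < y := by exact_mod_cast (by omega : 0 < y)
  have hy1 : (1 : ℝ) < y := by exact_mod_cast (by omega : 1 < y)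
  have hly : 0 < Real.log y := Real.log_pos hy1
  have h2 : (S.card : ℝ) * Real.log y ≤ ((y + 1) * m : ℝ) * Real.log 4 := by
    have h3 : Real.log ((y : ℝ) ^ S.card) ≤ Real.log ((4 : ℝ) ^ ((y + 1) * m)) := by
      apply Real.log_le_log (by positivity)
      exact_mod_cast h1
    rw [Real.log_pow, Real.log_pow] at h3
    push_cast at h3
    exact h3
  have h4 : (S.card : ℝ) / y ≤ 2 * m * Real.log 4 / Real.log y := by
    rw [div_le_div_iff₀ hy0 hly]
    have hl4 : 0 ≤ Real.log 4 := Real.log_nonneg (by norm_num)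
    have : ((y : ℝ) + 1) * m * Real.log 4 ≤ 2 * m * Real.log 4 * y := by
      have h5 : (y : ℝ) + 1 ≤ 2 * y := by linarith
      have h6 : 0 ≤ (m : ℝ) * Real.log 4 := by positivity
      nlinarith [mul_le_mul_of_nonneg_right h5 h6]
    linarith
  calc ∏ p ∈ S, (1 + (κ : ℝ) / (p : ℝ)) ≤ ∏ _p ∈ S, Real.exp ((κ : ℝ) / y) := by
        refine Finset.prod_le_prod (fun p _ => by positivity) fun p hp => ?_
        have h3 : (y : ℝ) ≤ p := by exact_mod_cast (Finset.mem_filter.1 hp).2.le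
        have h5 : (κ : ℝ) / p ≤ κ / y := by gcongr
        have := Real.add_one_le_exp ((κ : ℝ) / y)
        linarith
    _ = Real.exp (κ * ((S.card : ℝ) / y)) := by
        rw [Finset.prod_const, ← Real.exp_nat_mul]
        congr 1
        ring
    _ ≤ _ := by
        apply Real.exp_le_exp.2
        exact mul_le_mul_of_nonneg_left h4 (Nat.cast_nonneg _)

/-- the product over the primes -/
theorem prod_pr (δ κ s y : ℕ) (hs : 2 ≤ s) :
    ∏ p ∈ (Ioc s y).filter Nat.Prime, (1 + δ * hh κ p / (p : ℝ)) - 1 ≤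
      δ * (2 * κ + (κ : ℝ) ^ 2) * Real.exp (δ * (2 * κ + (κ : ℝ) ^ 2)) / s := by
  set a : ℝ := δ * (2 * κ + (κ : ℝ) ^ 2) with ha
  have ha0 : 0 ≤ a := by positivity
  have hs0 : (0 : ℝ) < s := by exact_mod_cast (by omega : 0 < s)
  have hs1 : (1 : ℝ) ≤ s := by exact_mod_cast (by omega : 1 ≤ s)
  have h1 : ∏ p ∈ (Ioc s y).filter Nat.Prime, (1 + δ * hh κ p / (p : ℝ)) ≤
      Real.exp (a / s) := by
    calc ∏ p ∈ (Ioc s y).filter Nat.Prime, (1 + δ * hh κ p / (p : ℝ)) ≤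
        ∏ p ∈ (Ioc s y).filter Nat.Prime, Real.exp (a * ((p : ℝ) ^ 2)⁻¹) := by
          refine Finset.prod_le_prod (fun p _ => ?_) fun p hp => ?_
          · have := hh_nonneg κ p
            positivity
          · rw [mem_filter, mem_Ioc] at hp
            have hp0 : (0 : ℝ) < p := by exact_mod_cast hp.2.pos
            have h2 := hh_le κ p hp.2.one_lt.le
            have h3 := Real.add_one_le_exp (a * ((p : ℝ) ^ 2)⁻¹)
            have h4 : δ * hh κ p / (p : ℝ) ≤ a * ((p : ℝ) ^ 2)⁻¹ := by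
              calc δ * hh κ p / (p : ℝ) ≤ δ * ((2 * κ + (κ : ℝ) ^ 2) / p) / (p : ℝ) := by
                    gcongr
                _ = a * ((p : ℝ) ^ 2)⁻¹ := by
                    rw [ha]
                    field_simp
            linarith
      _ = Real.exp (a * ∑ p ∈ (Ioc s y).filter Nat.Prime, ((p : ℝ) ^ 2)⁻¹) := by
          rw [← Real.exp_sum, Finset.mul_sum]
      _ ≤ Real.exp (a / s) := by
          apply Real.exp_le_exp.2
          rw [div_eq_mul_inv]
          refine mul_le_mul_of_nonneg_left ?_ ha0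
          rcases le_or_gt s y with hsy | hsy
          · refine (Finset.sum_le_sum_of_subset_of_nonneg (Finset.filter_subset _ _)
              fun _ _ _ => by positivity).trans ?_
            refine (sum_Ioc_inv_sq_le_sub (α := ℝ) (by omega : s ≠ 0) hsy).trans ?_
            have : (0 : ℝ) ≤ (y : ℝ)⁻¹ := by positivity
            linarith
          · rw [Finset.Ioc_eq_empty (by omega), Finset.filter_empty, Finset.sum_empty]
            positivity
  have h2 : Real.exp (a / s) - 1 ≤ a / s * Real.exp (a / s) := by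
    have h3 := Real.add_one_le_exp (-(a / s))
    have h4 : Real.exp (a / s) * Real.exp (-(a / s)) = 1 := by
      rw [← Real.exp_add]
      simp
    have h5 := mul_le_mul_of_nonneg_left h3 (Real.exp_pos (a / s)).le
    rw [h4] at h5
    linarith
  have h3 : Real.exp (a / s) ≤ Real.exp a := by
    apply Real.exp_le_exp.2
    exact div_le_self ha0 hs1
  calc ∏ p ∈ (Ioc s y).filter Nat.Prime, (1 + δ * hh κ p / (p : ℝ)) - 1 ≤
      Real.exp (a / s) - 1 := by linarith
    _ ≤ a / s * Real.exp (a / s) := h2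
    _ ≤ a / s * Real.exp a := by
        refine mul_le_mul_of_nonneg_left h3 (by positivity)
    _ = _ := by ring

/-- the size of the values -/
theorem eval_le {n : ℕ} (P : MvPolynomial (Fin n) ℤ) (v : Fin n → ℤ) (L δ : ℕ) (hL : 1 ≤ L)
    (hv : ∀ i, |v i| ≤ (L : ℤ)) (hd : P.totalDegree ≤ δ) :
    (MvPolynomial.eval v P).natAbs ≤ (∑ m ∈ P.support, (P.coeff m).natAbs) * L ^ δ := by
  have h1 : |MvPolynomial.eval v P| ≤ ((∑ m ∈ P.support, (P.coeff m).natAbs : ℕ) : ℤ) *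
      (L : ℤ) ^ δ := by
    rw [MvPolynomial.eval_eq]
    refine (Finset.abs_sum_le_sum_abs _ _).trans ?_
    push_cast
    rw [Finset.sum_mul]
    refine Finset.sum_le_sum fun m hm => ?_
    rw [abs_mul]
    refine mul_le_mul_of_nonneg_left ?_ (abs_nonneg _)
    rw [Finset.abs_prod]
    have hL' : (1 : ℤ) ≤ (L : ℤ) := by exact_mod_cast hL
    calc ∏ i ∈ m.support, |v i ^ m i| ≤ ∏ i ∈ m.support, (L : ℤ) ^ m i := by
          refine Finset.prod_le_prod (fun _ _ => abs_nonneg _) fun i _ => ?_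
          rw [abs_pow]
          exact pow_le_pow_left₀ (abs_nonneg _) (hv i) _
      _ = (L : ℤ) ^ (∑ i ∈ m.support, m i) := by rw [Finset.prod_pow_eq_pow_sum]
      _ ≤ (L : ℤ) ^ δ := pow_le_pow_right₀ hL' ((MvPolynomial.le_totalDegree hm).trans hd)
  rw [Int.abs_eq_natAbs] at h1
  exact_mod_cast h1

theorem card_box (n L : ℕ) (hL : 1 ≤ L) :
    ((Fintype.piFinset (fun _ : Fin n => Icc (-(L : ℤ)) L)).card : ℝ) = (2 * (L : ℝ) + 1) ^ n ∧
    (2 * (L : ℝ) + 1) ^ n ≤ 3 ^ n * (L : ℝ) ^ n := by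
  have e : (Icc (-(L : ℤ)) L).card = 2 * L + 1 := by
    rw [Int.card_Icc]
    omega
  refine ⟨?_, ?_⟩
  · rw [Fintype.card_piFinset, Finset.prod_const, e, Finset.card_univ, Fintype.card_fin]
    push_cast
    ring
  · rw [← mul_pow]
    have : (1 : ℝ) ≤ L := by exact_mod_cast hL
    apply pow_le_pow_left₀ (by positivity)
    linarith

/-- the number of zeros over the integers -/
theorem zeros_int {n δ : ℕ} (P : MvPolynomial (Fin n) ℤ) (hP : P ≠ 0) (hd : P.totalDegree ≤ δ)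
    (L : ℕ) (hL : 1 ≤ L) :
    (((Fintype.piFinset (fun _ : Fin n => Icc (-(L : ℤ)) L)).filter
      (fun v => MvPolynomial.eval v P = 0)).card : ℝ) ≤ δ * 3 ^ n * (L : ℝ) ^ n / L := by
  classical
  have h := MvPolynomial.schwartz_zippel_totalDegree hP (Icc (-(L : ℤ)) L)
  have e : (Icc (-(L : ℤ)) L).card = 2 * L + 1 := by
    rw [Int.card_Icc]
    omega
  rw [e] at h
  have h2 : ((((((Fintype.piFinset (fun _ : Fin n => Icc (-(L : ℤ)) L)).filter
      (fun v => MvPolynomial.eval v P = 0)).card : ℚ≥0) /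
      (((2 * L + 1 : ℕ) : ℚ≥0) ^ n) : ℚ≥0)) : ℝ) ≤
      (((P.totalDegree : ℚ≥0) / ((2 * L + 1 : ℕ) : ℚ≥0) : ℚ≥0) : ℝ) := by exact_mod_cast h
  push_cast at h2
  have hL' : (1 : ℝ) ≤ L := by exact_mod_cast hL
  have hpn : (0 : ℝ) < (2 * (L : ℝ) + 1) ^ n := by positivity
  rw [div_le_iff₀ hpn] at h2
  refine h2.trans ?_
  have hd' : (P.totalDegree : ℝ) ≤ δ := by exact_mod_cast hd
  calc (P.totalDegree : ℝ) / (2 * (L : ℝ) + 1) * (2 * (L : ℝ) + 1) ^ n ≤
      (δ : ℝ) / (L : ℝ) * (3 ^ n * (L : ℝ) ^ n) := by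
        have h3 := (card_box n L hL).2
        have h4 : (L : ℝ) ≤ 2 * (L : ℝ) + 1 := by linarith
        gcongr
    _ = _ := by ring

/-- **The average.** -/
theorem t_AVG (_h : S_MER) : Pool.Agent.N728.QG.S_AVG := by
  classical
  intro n δ κ hn
  set a : ℝ := δ * (2 * κ + (κ : ℝ) ^ 2) with ha
  have ha0 : 0 ≤ a := by positivity
  set A : ℝ := 4 ^ n * (a * Real.exp a) with hA
  have hA0 : 0 ≤ A := by positivity
  refine ⟨A + 1, by positivity, ?_⟩
  intro s P hs hd hP D hD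
  have hs0 : (0 : ℝ) < s := by exact_mod_cast (by omega : 0 < s)
  have hP0 : P ≠ 0 := by
    rintro rfl
    obtain ⟨p, hp1, hp2⟩ := Nat.exists_infinite_primes (s + 1)
    exact hP p hp2 (by omega) (by simp)
  set CP : ℕ := ∑ m ∈ P.support, (P.coeff m).natAbs with hCP
  -- the contribution of the large primes
  obtain ⟨Y0, hY0⟩ : ∃ Y0 : ℕ, ∀ y : ℕ, Y0 ≤ y →
      Real.exp (κ * (2 * ((δ + 1 : ℕ) : ℝ) * Real.log 4 / Real.log y)) ^ 2 - 1 ≤
        1 / (s * (A + 3 ^ n)) := by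
    have t1 : Filter.Tendsto (fun y : ℕ => Real.log (y : ℝ)) Filter.atTop Filter.atTop :=
      Real.tendsto_log_atTop.comp tendsto_natCast_atTop_atTop
    have t2 : Filter.Tendsto (fun y : ℕ => (κ : ℝ) * (2 * ((δ + 1 : ℕ) : ℝ) * Real.log 4 /
        Real.log (y : ℝ))) Filter.atTop (nhds (κ * 0)) :=
      (t1.const_div_atTop _).const_mul _
    have t3 : Filter.Tendsto (fun y : ℕ => Real.exp ((κ : ℝ) * (2 * ((δ + 1 : ℕ) : ℝ) *
        Real.log 4 / Real.log (y : ℝ))) ^ 2 - 1) Filter.atTop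
        (nhds (Real.exp (κ * 0) ^ 2 - 1)) :=
      ((Real.continuous_exp.tendsto _ |>.comp t2).pow 2).sub_const 1
    have e : Real.exp ((κ : ℝ) * 0) ^ 2 - 1 = 0 := by simp
    rw [e] at t3
    have h1 : (0 : ℝ) < 1 / (s * (A + 3 ^ n)) := by positivity
    obtain ⟨Y0, h2⟩ := Filter.eventually_atTop.1 (t3.eventually (gt_mem_nhds h1))
    exact ⟨Y0, fun y hy => (h2 y hy).le⟩
  obtain ⟨L1, hL1⟩ : ∃ L1 : ℕ, ∀ L : ℕ, L1 ≤ L →
      (δ : ℝ) * 3 ^ n * (D * Real.log L) ^ κ ≤ L := by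
    have h1 : (fun x : ℝ => Real.log x ^ κ) =o[Filter.atTop] (id : ℝ → ℝ) :=
      Real.isLittleO_pow_log_id_atTop
    have h2 : (0 : ℝ) < 1 / ((δ : ℝ) * 3 ^ n * (D : ℝ) ^ κ + 1) := by positivity
    have h3 := (h1.def h2)
    obtain ⟨x0, h4⟩ := Filter.eventually_atTop.1 h3
    refine ⟨⌈x0⌉₊ + 1, fun L hL => ?_⟩
    have hLx : x0 ≤ (L : ℝ) := by
      refine (Nat.le_ceil x0).trans ?_
      exact_mod_cast (by omega : ⌈x0⌉₊ ≤ L)
    have hL1 : (1 : ℝ) ≤ L := by exact_mod_cast (by omega : 1 ≤ L)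
    have h5 := h4 L hLx
    have hlog : 0 ≤ Real.log (L : ℝ) := Real.log_nonneg hL1
    rw [Real.norm_of_nonneg (by positivity), id, Real.norm_of_nonneg (by positivity)] at h5
    have h6 : ((δ : ℝ) * 3 ^ n * (D : ℝ) ^ κ + 1) * Real.log L ^ κ ≤ L := by
      have h7 : (0 : ℝ) < (δ : ℝ) * 3 ^ n * (D : ℝ) ^ κ + 1 := by positivity
      have h8 := mul_le_mul_of_nonneg_left h5 h7.le
      refine h8.trans (le_of_eq ?_)
      field_simp
    rw [mul_pow]
    have h7 : 0 ≤ Real.log L ^ κ := by positivity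
    nlinarith
  obtain ⟨L0, hL0⟩ : ∃ L0 : ℕ, L0 = max (4 ^ (max Y0 (max s 2))) (max L1 (CP + 3)) := ⟨_, rfl⟩
  refine ⟨L0 ^ D + 3, fun B hB L hBL hLB => ?_⟩
  have hLL : L0 ≤ L := by
    have h1 : L0 ^ D ≤ L ^ D := by omega
    exact (Nat.pow_le_pow_iff_left (by omega)).1 h1
  have b1 : 4 ^ (max Y0 (max s 2)) ≤ L := by
    refine le_trans ?_ hLL
    rw [hL0]
    exact le_max_left _ _
  have b2 : L1 ≤ L := by
    refine le_trans ?_ hLL
    rw [hL0]
    exact (le_max_left _ _).trans (le_max_right _ _)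
  have b3 : CP + 3 ≤ L := by
    refine le_trans ?_ hLL
    rw [hL0]
    exact (le_max_right _ _).trans (le_max_right _ _)
  have hLpos : 1 ≤ L := by omega
  have hLr : (1 : ℝ) ≤ L := by exact_mod_cast hLpos
  have hLr0 : (0 : ℝ) < L := by linarith
  constructor
  · set y := Nat.log 4 L with hy
    have y1 : max Y0 (max s 2) ≤ y := Nat.le_log_of_pow_le (by norm_num) b1
    have yY : Y0 ≤ y := (le_max_left _ _).trans y1
    have ys : s ≤ y := ((le_max_left _ _).trans (le_max_right _ _)).trans y1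
    have y2 : 2 ≤ y := ((le_max_right _ _).trans (le_max_right _ _)).trans y1
    have y4 : 4 ^ y ≤ L := Nat.pow_log_le_self 4 (by omega)
    have y5 : L < 4 ^ (y + 1) := Nat.lt_pow_succ_log_self (by norm_num) L
    set S := (Ioc s y).filter Nat.Prime with hS
    have hSp : ∀ p ∈ S, p.Prime := fun p hp => (mem_filter.1 hp).2
    have hSs : ∀ p ∈ S, s < p := fun p hp => (mem_Ioc.1 (mem_filter.1 hp).1).1
    have hQL : ∏ p ∈ S, p ≤ L := by
      refine le_trans ?_ y4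
      refine le_trans ?_ (primorial_le_four_pow y)
      unfold primorial
      refine Finset.prod_le_prod_of_subset_of_one_le' ?_ fun p hp _ => ?_
      · intro p hp
        rw [hS, mem_filter, mem_Ioc] at hp
        rw [mem_filter, mem_range]
        exact ⟨by omega, hp.2⟩
      · exact (mem_filter.1 hp).2.one_lt.le
    have havg := prod_avg S hSp L hLpos hQL P hd (fun p hp => hP p (hSp p hp) (hSs p hp))
      (hh κ) (hh_nonneg κ)
    set e3 : ℝ := Real.exp (κ * (2 * ((δ + 1 : ℕ) : ℝ) * Real.log 4 / Real.log y)) ^ 2 - 1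
      with he3
    have he3' : e3 ≤ 1 / (s * (A + 3 ^ n)) := hY0 y yY
    have he30 : 0 ≤ e3 := by
      rw [he3, sub_nonneg]
      apply one_le_pow₀
      apply Real.one_le_exp
      have : 0 ≤ Real.log 4 := Real.log_nonneg (by norm_num)
      have : 0 ≤ Real.log (y : ℝ) := Real.log_natCast_nonneg y
      positivity
    set Pr : (Fin n → ℤ) → ℝ := fun v =>
      ∏ p ∈ S, (if (p : ℤ) ∣ MvPolynomial.eval v P then 1 + hh κ p else 1) with hPr
    have hPr1 : ∀ v, 1 ≤ Pr v := by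
      intro v
      have h1 : ∏ _p ∈ S, (1 : ℝ) ≤ Pr v := by
        refine Finset.prod_le_prod (fun _ _ => zero_le_one) fun p _ => ?_
        split_ifs
        · linarith [hh_nonneg κ p]
        · exact le_rfl
      rwa [Finset.prod_const_one] at h1
    have hpt : ∀ v ∈ Fintype.piFinset (fun _ : Fin n => Icc (-(L : ℤ)) L),
        (if MvPolynomial.eval v P = 0 then 0 else hqg κ s (MvPolynomial.eval v P) ^ 2 - 1) ≤
        (1 + e3) * (Pr v - 1) + e3 := by
      intro v hv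
      rw [Fintype.mem_piFinset] at hv
      by_cases h0 : MvPolynomial.eval v P = 0
      · rw [if_pos h0]
        have := hPr1 v
        have : 0 ≤ (1 + e3) * (Pr v - 1) := mul_nonneg (by linarith) (by linarith)
        linarith
      · rw [if_neg h0, hqg_split κ s y ys _ h0]
        have h1 : hqg κ y (MvPolynomial.eval v P) ^ 2 ≤ 1 + e3 := by
          have h2 := hqg_tail κ y (δ + 1) (MvPolynomial.eval v P) h0 y2 (by
            refine (eval_le P v L δ hLpos (fun i => ?_) hd).trans ?_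
            · have := mem_Icc.1 (hv i)
              exact abs_le.2 this
            · calc (∑ m ∈ P.support, (P.coeff m).natAbs) * L ^ δ ≤ L * L ^ δ :=
                    Nat.mul_le_mul_right _ (by omega)
                _ = L ^ (δ + 1) := by ring
                _ ≤ (4 ^ (y + 1)) ^ (δ + 1) := Nat.pow_le_pow_left y5.le _
                _ = 4 ^ ((y + 1) * (δ + 1)) := by rw [← pow_mul])
          have h3 := pow_le_pow_left₀ (hqg_nonneg κ y (MvPolynomial.eval v P)) h2 2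
          rw [he3]
          linarith
        have h2 : Pr v * hqg κ y (MvPolynomial.eval v P) ^ 2 ≤ Pr v * (1 + e3) :=
          mul_le_mul_of_nonneg_left h1 (by linarith [hPr1 v])
        show Pr v * hqg κ y (MvPolynomial.eval v P) ^ 2 - 1 ≤ _
        linarith
    refine (Finset.sum_le_sum hpt).trans ?_
    rw [Finset.sum_add_distrib, ← Finset.mul_sum, Finset.sum_const, nsmul_eq_mul]
    have g1 : ∏ p ∈ S, (1 + δ * hh κ p / (p : ℝ)) - 1 ≤ a * Real.exp a / s := prod_pr δ κ s y hs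
    have g2 : ∑ v ∈ Fintype.piFinset (fun _ : Fin n => Icc (-(L : ℤ)) L), (Pr v - 1) ≤
        A / s * (L : ℝ) ^ n := by
      refine havg.trans ?_
      refine (mul_le_mul_of_nonneg_left g1 (by positivity)).trans (le_of_eq ?_)
      rw [hA, mul_pow]
      ring
    have g3 : ((Fintype.piFinset (fun _ : Fin n => Icc (-(L : ℤ)) L)).card : ℝ) ≤
        3 ^ n * (L : ℝ) ^ n := by
      rw [(card_box n L hLpos).1]
      exact (card_box n L hLpos).2
    have g4 : e3 * (A + 3 ^ n) ≤ 1 / s := by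
      have h1 : (0 : ℝ) < A + 3 ^ n := by positivity
      calc e3 * (A + 3 ^ n) ≤ 1 / (s * (A + 3 ^ n)) * (A + 3 ^ n) :=
            mul_le_mul_of_nonneg_right he3' h1.le
        _ = 1 / s := by field_simp
    have hs1 : (1 : ℝ) ≤ s := by exact_mod_cast (by omega : 1 ≤ s)
    have hLn : (0 : ℝ) < (L : ℝ) ^ n := by positivity
    have g5 : A / s ≤ A := div_le_self hA0 hs1
    calc (1 + e3) * ∑ v ∈ Fintype.piFinset (fun _ : Fin n => Icc (-(L : ℤ)) L), (Pr v - 1) +
        ((Fintype.piFinset (fun _ : Fin n => Icc (-(L : ℤ)) L)).card : ℝ) * e3 ≤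
        (1 + e3) * (A / s * (L : ℝ) ^ n) + 3 ^ n * (L : ℝ) ^ n * e3 := by
          have h1 : 0 ≤ 1 + e3 := by linarith
          gcongr
      _ = (A / s + e3 * (A / s + 3 ^ n)) * (L : ℝ) ^ n := by ring
      _ ≤ (A / s + 1 / s) * (L : ℝ) ^ n := by
          refine mul_le_mul_of_nonneg_right ?_ hLn.le
          have : e3 * (A / s + 3 ^ n) ≤ e3 * (A + 3 ^ n) :=
            mul_le_mul_of_nonneg_left (by linarith) he30
          linarith
      _ = (A + 1) / s * (L : ℝ) ^ n := by ring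
  · refine (zeros_int P hP0 hd L hLpos).trans ?_
    have hB3 : (3 : ℝ) ≤ B := by exact_mod_cast (by omega : 3 ≤ B)
    have hlB : 0 < Real.log B := Real.log_pos (by linarith)
    have hlL : Real.log B ≤ D * Real.log L := by
      have h1 : Real.log (B : ℝ) ≤ Real.log ((L : ℝ) ^ D) := by
        apply Real.log_le_log (by linarith)
        exact_mod_cast hBL
      rwa [Real.log_pow] at h1
    have h2 := hL1 L b2
    have h3 : (δ : ℝ) * 3 ^ n * Real.log B ^ κ ≤ L := by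
      refine le_trans ?_ h2
      gcongr
    rw [div_le_div_iff₀ hLr0 (by positivity)]
    have hLn : (0 : ℝ) < (L : ℝ) ^ n := by positivity
    calc (δ : ℝ) * 3 ^ n * (L : ℝ) ^ n * Real.log B ^ κ =
        (δ * 3 ^ n * Real.log B ^ κ) * (L : ℝ) ^ n := by ring
      _ ≤ L * (L : ℝ) ^ n := mul_le_mul_of_nonneg_right h3 hLn.le
      _ = (L : ℝ) ^ n * L := by ring

end

end Pool.Agent.N323.QG
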